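import Pool.Agent.Helper55.CF.Goals

/-! # Rank one point, good case (packet R1a) -/

open MeasureTheory Complex

noncomputable section
namespace CF55

lemma r1a_exists_notMem {W : Submodule ℂ V} {n : ℕ} (s : Fin n → V)
    (h : n < Module.finrank ℂ W) : ∃ x ∈ W, x ∉ Submodule.span ℂ (Set.range s) := by
  by_contra hc
  push Not at hc
  have h1 : W ≤ Submodule.span ℂ (Set.range s) := fun x hx => hc x hx
  have h2 := Submodule.finrank_mono h1
  have h3 := finrank_range_le_card (R := ℂ) s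
  rw [Set.finrank, Fintype.card_fin] at h3
  omega

lemma r1a_finrank (f g : V →ₗ[ℂ] ℂ) :
    4 ≤ Module.finrank ℂ (LinearMap.ker (f.prod g) : Submodule ℂ V) := by
  have h1 := LinearMap.finrank_range_add_finrank_ker (f.prod g)
  have h2 : Module.finrank ℂ (LinearMap.range (f.prod g)) ≤ 2 := by
    refine (Submodule.finrank_le _).trans ?_
    simp
  have h3 : Module.finrank ℂ V = 6 := by simp
  omega

lemma r1a_sqrt (z : ℂ) : ∃ c : ℂ, c ^ 2 = z := by
  obtain ⟨c, hc⟩ := IsAlgClosed.exists_pow_nat_eq z (n := 2) (by norm_num)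
  exact ⟨c, hc⟩

theorem stmtR1a : G_R1a := by
  intro T P m hS hP hm hPP hPv u hmu huuu ⟨h0, hmh0, huuh0⟩
  have hmP : m P = 0 := by
    have := hPv P
    rw [hPP] at this
    exact pow_eq_zero_iff (two_ne_zero) |>.1 this.symm
  have hP1 : ∀ x y, T P x y = m x * m y := by
    intro x y
    have e1 := hPv (x + y)
    have e2 := hPv x
    have e3 := hPv y
    have e4 := hS.s23 P x y
    simp only [map_add, LinearMap.add_apply] at e1
    linear_combination (1/2) * e1 - (1/2) * e2 - (1/2) * e3 + (1/2) * e4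
  have hP2 : ∀ x y, T x P y = m x * m y := fun x y => by rw [hS.s12, hP1]
  have hP3 : ∀ x y, T x y P = m x * m y := fun x y => by rw [hS.s23, hP2]
  -- step 1
  obtain ⟨v1, hmv1, huv1⟩ : ∃ v1, m v1 ^ 2 = 1 / 3 ∧ T u u v1 = 0 := by
    obtain ⟨w, hw⟩ : ∃ w, m w ≠ 0 := by
      by_contra hc
      push Not at hc
      exact hm (LinearMap.ext fun x => by simp [hc x])
    obtain ⟨c, hc⟩ := r1a_sqrt (1 / 3)
    refine ⟨(c / m w) • w - (T u u ((c / m w) • w) / T u u h0) • h0, ?_, ?_⟩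
    · rw [map_sub, map_smul, map_smul, hmh0, smul_zero, sub_zero, smul_eq_mul,
        div_mul_cancel₀ _ hw, hc]
    · rw [map_sub, map_smul _ _ h0, smul_eq_mul, div_mul_cancel₀ _ huuh0, sub_self]
  -- step 2
  obtain ⟨u', hmu', huu', hu'v1, hu'u'⟩ : ∃ u', m u' = 0 ∧ (∀ x, T u' u' x = T u u x) ∧
      T u' v1 v1 = 0 ∧ T u u u' = 0 := by
    refine ⟨u + (-3 * T u v1 v1) • P, ?_, ?_, ?_, ?_⟩
    · simp [hmu, hmP]
    · intro x
      simp [hP1, hP2, hmu, hmP]
    · simp only [map_add, map_smul, LinearMap.add_apply, LinearMap.smul_apply, hP1, smul_eq_mul]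
      linear_combination (-3 * T u v1 v1) * hmv1
    · simp [hP3, hmu, huuu]
  have hu'3 : T u' u' u' = 0 := by rw [huu', hu'u']
  -- step 3
  obtain ⟨v2, hmv2, hv2, hu'v2, huuv2⟩ : ∃ v2, m v2 ^ 2 = 1 / 3 ∧ T v2 v2 v2 = 0 ∧
      T u' v2 v2 = 0 ∧ T u' u' v2 = 0 := by
    refine ⟨v1 + (- T v1 v1 v1) • P, ?_, ?_, ?_, ?_⟩
    · simp only [map_add, map_smul, hmP, smul_zero, add_zero, hmv1]
    · simp only [map_add, map_smul, LinearMap.add_apply, LinearMap.smul_apply, hP1, hP2, hP3,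
        smul_eq_mul, hmP]
      linear_combination (-3 * T v1 v1 v1) * hmv1
    · simp only [map_add, map_smul, LinearMap.add_apply, LinearMap.smul_apply, hP1, hP2, hP3,
        smul_eq_mul, hmP, hmu', hu'v1]
      ring
    · simp only [map_add, map_smul, hP3, smul_eq_mul, hmu', huu', huv1, hmu]
      ring
  -- step 4
  obtain ⟨z1, hmz1, huuz1⟩ : ∃ z1, m z1 = 0 ∧ T u' u' z1 = 1 / 3 := by
    refine ⟨(1 / 3 / T u u h0) • h0, ?_, ?_⟩
    · simp [hmh0]
    · rw [huu', map_smul, smul_eq_mul, div_mul_cancel₀ _ huuh0]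
  obtain ⟨v3, hmv3, hv3, hu'v3, huuv3, hu'v3z1⟩ : ∃ v3, m v3 ^ 2 = 1 / 3 ∧ T v3 v3 v3 = 0 ∧
      T u' v3 v3 = 0 ∧ T u' u' v3 = 0 ∧ T u' v3 z1 = 0 := by
    have a1 : T v2 u' v2 = 0 := by rw [hS.s12, hu'v2]
    have a2 : T v2 v2 u' = 0 := by rw [hS.s23, a1]
    have a3 : T u' v2 u' = 0 := by rw [hS.s23, huuv2]
    have a4 : T v2 u' u' = 0 := by rw [hS.s12, a3]
    refine ⟨v2 + (-3 * T u' v2 z1) • u', ?_, ?_, ?_, ?_, ?_⟩
    · simp only [map_add, map_smul, hmu', smul_zero, add_zero, hmv2]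
    · simp only [map_add, map_smul, LinearMap.add_apply, LinearMap.smul_apply,
        smul_eq_mul, a1, a2, a3, a4, hv2, hu'v2, huuv2, hu'3]
      ring
    · simp only [map_add, map_smul, LinearMap.add_apply, LinearMap.smul_apply,
        smul_eq_mul, a1, a2, a3, a4, hv2, hu'v2, huuv2, hu'3]
      ring
    · simp only [map_add, map_smul, smul_eq_mul, huuv2, hu'3]
      ring
    · simp only [map_add, map_smul, LinearMap.add_apply, LinearMap.smul_apply,
        smul_eq_mul, huuz1]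
      ring
  have hmv3' : m v3 ≠ 0 := by
    intro h
    rw [h] at hmv3
    norm_num at hmv3
  -- step 5
  have hli2 : LinearIndependent ℂ ![P, u'] := by
    rw [LinearIndependent.pair_iff]
    intro s t hst
    have h1 : T (s • P + t • u') (s • P + t • u') z1 = 0 := by rw [hst]; simp
    simp only [map_add, map_smul, LinearMap.add_apply, LinearMap.smul_apply, hP1, hP2,
        smul_eq_mul, hmP, hmu', huuz1] at h1
    have ht : t = 0 := by
      have : t * t = 0 := by linear_combination 3 * h1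
      simpa using this
    subst ht
    rw [zero_smul, add_zero] at hst
    exact ⟨(smul_eq_zero.1 hst).resolve_right hP, rfl⟩
  have hW := r1a_finrank m (T u' u')
  obtain ⟨z2, hz2W, hz2⟩ := r1a_exists_notMem ![P, u'] (lt_of_lt_of_le (by norm_num) hW)
  have hli3 : LinearIndependent ℂ (Fin.cons z2 ![P, u'] : Fin 3 → V) :=
    linearIndependent_fin_cons.2 ⟨hli2, hz2⟩
  obtain ⟨z3, hz3W, hz3⟩ := r1a_exists_notMem (Fin.cons z2 ![P, u'] : Fin 3 → V)
    (lt_of_lt_of_le (by norm_num) hW)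
  have hli4 : LinearIndependent ℂ (Fin.cons z3 (Fin.cons z2 ![P, u'] : Fin 3 → V) : Fin 4 → V) :=
    linearIndependent_fin_cons.2 ⟨hli3, hz3⟩
  have hz2' : m z2 = 0 ∧ T u' u' z2 = 0 := by simpa using hz2W
  have hz3' : m z3 = 0 ∧ T u' u' z3 = 0 := by simpa using hz3W
  obtain ⟨hmz2, huuz2⟩ := hz2'
  obtain ⟨hmz3, huuz3⟩ := hz3'
  -- step 6
  set e : Fin 6 → V := ![P, u', v3, z1 + (-3 * T v3 v3 z1) • P, z2 + (-3 * T v3 v3 z2) • P,
    z3 + (-3 * T v3 v3 z3) • P] with he
  have hme : ∀ a, a ≠ 2 → m (e a) = 0 := by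
    intro a ha
    fin_cases a <;> simp_all
  have e0 : e 0 = P := rfl
  have e1 : e 1 = u' := rfl
  have e2 : e 2 = v3 := rfl
  have e3 : e 3 = z1 + (-3 * T v3 v3 z1) • P := rfl
  have e4 : e 4 = z2 + (-3 * T v3 v3 z2) • P := rfl
  have e5 : e 5 = z3 + (-3 * T v3 v3 z3) • P := rfl
  refine ⟨e, ?_, ?_, ?_, ?_, ?_, ?_, ?_, ?_, ?_, ?_, ?_, ?_, ?_, ?_, ?_⟩
  · rw [Fintype.linearIndependent_iff]
    intro g hg
    rw [Fin.sum_univ_six, e0, e1, e2, e3, e4, e5] at hg
    have g2 : g 2 = 0 := by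
      have := congrArg m hg
      simp only [map_add, map_smul, hmP, hmu', hmz1, hmz2, hmz3, smul_eq_mul, mul_zero, add_zero,
        zero_add, map_zero] at this
      exact (mul_eq_zero.1 this).resolve_right hmv3'
    have g3 : g 3 = 0 := by
      have := congrArg (T u' u') hg
      simp only [map_add, map_smul, hP3, hmP, hmu', huuz1, huuz2, huuz3, huuv3, hu'3, smul_eq_mul,
        mul_zero, add_zero, zero_add, map_zero] at this
      linear_combination 3 * this
    rw [g2, g3] at hg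
    have h4 := Fintype.linearIndependent_iff.1 hli4
      ![g 5, g 4, g 0 + g 4 * (-3 * T v3 v3 z2) + g 5 * (-3 * T v3 v3 z3), g 1] (by
        rw [Fin.sum_univ_four]
        simp only [Fin.isValue, Matrix.cons_val_zero, Fin.cons_zero, Matrix.cons_val_one,
          Matrix.cons_val]
        rw [← hg]
        change g 5 • z3 + g 4 • z2 + (g 0 + g 4 * (-3 * T v3 v3 z2) + g 5 * (-3 * T v3 v3 z3)) • P
          + g 1 • u' = _
        module)
    have k5 : g 5 = 0 := h4 0
    have k4 : g 4 = 0 := h4 1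
    have k1 : g 1 = 0 := h4 3
    have k0 : g 0 + g 4 * (-3 * T v3 v3 z2) + g 5 * (-3 * T v3 v3 z3) = 0 := h4 2
    rw [k4, k5] at k0
    have k0' : g 0 = 0 := by linear_combination k0
    intro i
    fin_cases i
    · exact k0'
    · exact k1
    · exact g2
    · exact g3
    · exact k4
    · exact k5
  · intro a
    rw [e0, hP1, hmP, zero_mul]
  · intro a b hab
    rw [e0, hP1]
    by_cases ha : a = 2
    · have hb : b ≠ 2 := fun hb => hab ⟨ha, hb⟩
      rw [hme b hb, mul_zero]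
    · rw [hme a ha, zero_mul]
  · rw [e0, e2, hP1, ← hmv3]; ring
  · rw [e1, hu'3]
  · rw [e1, e2, huuv3]
  · rw [e1, e2, hu'v3]
  · rw [e2, hv3]
  · rw [e2, e3]
    simp only [map_add, map_smul, hP3, smul_eq_mul]
    linear_combination (-3 * T v3 v3 z1) * hmv3
  · rw [e2, e4]
    simp only [map_add, map_smul, hP3, smul_eq_mul]
    linear_combination (-3 * T v3 v3 z2) * hmv3
  · rw [e2, e5]
    simp only [map_add, map_smul, hP3, smul_eq_mul]
    linear_combination (-3 * T v3 v3 z3) * hmv3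
  · rw [e1, e3]
    simp only [map_add, map_smul, hP3, smul_eq_mul, hmu', huuz1]
    ring
  · rw [e1, e4]
    simp only [map_add, map_smul, hP3, smul_eq_mul, hmu', huuz2]
    ring
  · rw [e1, e5]
    simp only [map_add, map_smul, hP3, smul_eq_mul, hmu', huuz3]
    ring
  · rw [e1, e2, e3]
    simp only [map_add, map_smul, hP3, smul_eq_mul, hmu', hu'v3z1]
    ring

end CF55
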